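import Mathlib
import Pool.Agent.Work.MP_80e05d_ag.XP.Main

set_option autoImplicit false

open MvPolynomial

namespace Pool.Agent.Results.MP_80e05d_ag.DegreeEighteen

/-- The gradient of the polynomial `F` at the point `y`. -/
noncomputable def gradient (F : MvPolynomial (Fin 5) ℂ) (y : Fin 5 → ℂ) : Fin 5 → ℂ :=
  fun i => eval y (pderiv i F)

/-- `X ⊆ ℂ^5` is the affine cone over a smooth irreducible projective surface in `P^4`: it is the
zero set of homogeneous polynomials, it is irreducible, and near each of its points `y ≠ 0` (on a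
Zariski neighbourhood `h ≠ 0`) it is the zero set of two polynomials with independent gradients. -/
structure IsSmoothSurface (X : Set (Fin 5 → ℂ)) : Prop where
  /-- the zero set of homogeneous polynomials -/
  closed_cone : ∃ S : Set (MvPolynomial (Fin 5) ℂ), (∀ F ∈ S, ∃ n, F.IsHomogeneous n) ∧
    X = {y | ∀ F ∈ S, eval y F = 0}
  /-- the projective surface is not empty -/
  nonempty : ∃ y ∈ X, y ≠ 0
  /-- the ideal of `X` is prime -/
  irreducible : ∀ f g : MvPolynomial (Fin 5) ℂ, (∀ y ∈ X, eval y (f * g) = 0) →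
    (∀ y ∈ X, eval y f = 0) ∨ (∀ y ∈ X, eval y g = 0)
  /-- locally a complete intersection of two hypersurfaces with independent gradients -/
  smooth : ∀ y ∈ X, y ≠ 0 → ∃ F G h : MvPolynomial (Fin 5) ℂ,
    (∀ z ∈ X, eval z F = 0 ∧ eval z G = 0) ∧ LinearIndependent ℂ ![gradient F y, gradient G y] ∧
    eval y h ≠ 0 ∧ ∀ z, eval z h ≠ 0 → eval z F = 0 → eval z G = 0 → z ∈ X

/-- Some plane of `P^4` (the span of three independent vectors `j`) meets the surface in at least
`n` isolated points `P i`; hence the degree of the surface is at least `n`. -/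
def DegreeAtLeast (X : Set (Fin 5 → ℂ)) (n : ℕ) : Prop :=
  ∃ j : Fin 3 → (Fin 5 → ℂ), LinearIndependent ℂ j ∧ ∃ P : Fin n → (Fin 5 → ℂ),
    (∀ i, P i ∈ X ∧ P i ∈ Submodule.span ℂ (Set.range j) ∧ P i ≠ 0) ∧
    (∀ i k, i ≠ k → ∀ c : ℂ, P i ≠ c • P k) ∧
    ∀ i, ∃ ε > 0, ∀ z ∈ X, z ∈ Submodule.span ℂ (Set.range j) → ‖z - P i‖ < ε →
      ∃ c : ℂ, z = c • P i

/-- The surface contains a `(-1)`-line: the line `L` spanned by `p` and `q` lies on it, and there is
a quadratic vector `c(s,t) = s^2 c0 + s t c1 + t^2 c2`, never in the span of `p, q` for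
`(s,t) ≠ (0,0)`, which is tangent to `X` at the point `s p + t q` (it is killed by the gradients of all
polynomials vanishing on `X`).  So the normal bundle of `L` in the surface, a line bundle in
`O(1) ⊗ ℂ^5/(p,q)`, is the image of `O(1) ⊗ O(-2)`, that is `O(-1)`, and `L^2 = -1`. -/
def ContainsMinusOneLine (X : Set (Fin 5 → ℂ)) : Prop :=
  ∃ p q c0 c1 c2 : Fin 5 → ℂ, LinearIndependent ℂ ![p, q] ∧ (∀ s t : ℂ, s • p + t • q ∈ X) ∧
    ∀ s t : ℂ, (s, t) ≠ (0, 0) →
      (s ^ 2 • c0 + (s * t) • c1 + t ^ 2 • c2 ∉ Submodule.span ℂ {p, q}) ∧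
      ∀ f : MvPolynomial (Fin 5) ℂ, (∀ y ∈ X, eval y f = 0) →
        ∑ i, gradient f (s • p + t • q) i * (s ^ 2 • c0 + (s * t) • c1 + t ^ 2 • c2) i = 0

/-- There is a smooth irreducible surface in `P^4` of degree at least 18 which contains a
`(-1)`-line. -/
theorem result : ∃ X : Set (Fin 5 → ℂ),
    IsSmoothSurface X ∧ DegreeAtLeast X 18 ∧ ContainsMinusOneLine X := by
  obtain ⟨X, h1, h2, h3, h4, h5⟩ := Pool.Agent.XP.main
  refine ⟨X, ⟨h1, ?_, h2, h3⟩, h4, h5⟩
  obtain ⟨p, q, c0, c1, c2, hpq, hX, -⟩ := h5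
  refine ⟨p, ?_, ?_⟩
  · have := hX 1 0
    simpa using this
  · have := hpq.ne_zero 0
    simpa using this

end Pool.Agent.Results.MP_80e05d_ag.DegreeEighteen
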